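import Pool.Agent.Helper94.KC.GoalsC

/-!
Project KC (MP_bf413e_co), packet AC: the two arcs of a cycle.
-/

set_option autoImplicit false

namespace Pool.Agent.Helper33.KC

open scoped Classical
open Finset Pool.Agent.Helper94.KC

theorem mem_wed {V : Type} {G : SimpleGraph V} {x y : V} (w : G.Walk x y) (s : Finset V) :
    s ∈ wed w ↔ ∃ e ∈ w.edges, e.toFinset = s := by
  simp [wed]

theorem toFinset_inj {V : Type} {e e' : Sym2 V} (h : e.toFinset = e'.toFinset) : e = e' := by
  apply Sym2.ext
  intro x
  rw [← Sym2.mem_toFinset, ← Sym2.mem_toFinset, h]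

theorem ac : StmtAC := by
  intro V _ G x p q w hw hp hq hpq
  have hc : (w.rotate p hp).IsCycle := hw.rotate hp
  have hq' : q ∈ (w.rotate p hp).support := (w.mem_support_rotate_iff p hp).2 hq
  set c := w.rotate p hp with hcdef
  have hspec : (c.takeUntil q hq').append (c.dropUntil q hq') = c := c.take_spec hq'
  have hA : (c.takeUntil q hq').IsPath := hc.isPath_takeUntil hq'
  have hB : (c.dropUntil q hq').IsPath := by
    rw [← hspec] at hc
    exact hc.isPath_of_append_right (SimpleGraph.Walk.not_nil_of_ne hpq)
  have hedges : ∀ e, e ∈ w.edges ↔ e ∈ (c.takeUntil q hq').edges ∨ e ∈ (c.dropUntil q hq').edges := by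
    intro e
    rw [← List.mem_append, ← SimpleGraph.Walk.edges_append, hspec]
    exact ((w.rotate_edges p hp).perm.mem_iff).symm
  refine ⟨c.takeUntil q hq', (c.dropUntil q hq').reverse, hA, hB.reverse, ?_, ?_, ?_, ?_, ?_⟩
  · rw [SimpleGraph.Walk.length_reverse, ← SimpleGraph.Walk.length_append, hspec, hcdef,
      SimpleGraph.Walk.length_rotate]
  · rw [Finset.disjoint_left]
    intro s hs hs'
    rw [mem_wed] at hs hs'
    obtain ⟨e, he, rfl⟩ := hs
    obtain ⟨e', he', hee⟩ := hs'
    rw [SimpleGraph.Walk.edges_reverse, List.mem_reverse] at he'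
    rw [toFinset_inj hee] at he'
    exact hc.isTrail.disjoint_edges_takeUntil_dropUntil hq' he he'
  · ext s
    rw [Finset.mem_union, mem_wed, mem_wed, mem_wed]
    constructor
    · rintro (⟨e, he, rfl⟩ | ⟨e, he, rfl⟩)
      · exact ⟨e, (hedges e).2 (Or.inl he), rfl⟩
      · rw [SimpleGraph.Walk.edges_reverse, List.mem_reverse] at he
        exact ⟨e, (hedges e).2 (Or.inr he), rfl⟩
    · rintro ⟨e, he, rfl⟩
      rcases (hedges e).1 he with h | h
      · exact Or.inl ⟨e, h, rfl⟩
      · refine Or.inr ⟨e, ?_, rfl⟩
        rw [SimpleGraph.Walk.edges_reverse, List.mem_reverse]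
        exact h
  · intro v
    rw [SimpleGraph.Walk.support_reverse, List.mem_reverse,
      ← SimpleGraph.Walk.mem_support_append_iff, hspec, hcdef]
    exact (w.mem_support_rotate_iff p hp).symm
  · intro v hv hv'
    rw [SimpleGraph.Walk.support_reverse, List.mem_reverse] at hv'
    by_contra hcon
    push Not at hcon
    have h1 : v ∈ (c.takeUntil q hq').support.tail := by
      rw [← SimpleGraph.Walk.cons_tail_support] at hv
      rcases List.mem_cons.1 hv with h | h
      · exact absurd h hcon.1
      · exact h
    have h2 : v ∈ (c.dropUntil q hq').support.tail := by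
      rw [← SimpleGraph.Walk.cons_tail_support] at hv'
      rcases List.mem_cons.1 hv' with h | h
      · exact absurd h hcon.2
      · exact h
    have h3 := hc.2
    rw [← hspec, SimpleGraph.Walk.tail_support_append, List.nodup_append'] at h3
    exact h3.2.2 h1 h2

end Pool.Agent.Helper33.KC
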