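import Pool.Agent.Helper53.KC.Goals2
import Pool.Agent.Helper62.KC.Cnt

/-!
# Almost every matroid has no nontrivial automorphism: counting invariant matroids (CNT2)
-/

namespace Pool.Agent.Helper33.KC

open Finset Pool.Agent.Helper53.KC Pool.Agent.Helper62.KC

variable {n : ℕ}

theorem act_mul (σ τ : Equiv.Perm (Fin n)) (X : Finset (Fin n)) :
    act (σ * τ) X = act σ (act τ X) := by
  unfold act
  rw [Finset.map_map]
  congr 1

theorem act_one (X : Finset (Fin n)) : act (1 : Equiv.Perm (Fin n)) X = X := by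
  unfold act
  have : (1 : Equiv.Perm (Fin n)).toEmbedding = Function.Embedding.refl _ := rfl
  rw [this, Finset.map_refl]

theorem act_card (σ : Equiv.Perm (Fin n)) (X : Finset (Fin n)) : (act σ X).card = X.card := by
  unfold act
  exact Finset.card_map _

theorem act_subset (σ : Equiv.Perm (Fin n)) {X Y : Finset (Fin n)} (h : X ⊆ Y) :
    act σ X ⊆ act σ Y := by
  unfold act
  exact Finset.map_subset_map.2 h

theorem adj_act (σ : Equiv.Perm (Fin n)) {X Y : Finset (Fin n)} (h : adj X Y) :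
    adj (act σ X) (act σ Y) := by
  unfold adj at *
  have : act σ X ∩ act σ Y = act σ (X ∩ Y) := by
    unfold act
    exact (Finset.map_inter _ _).symm
  rw [this, act_card, act_card, act_card]
  exact h

theorem pow_inv (σ : Equiv.Perm (Fin n)) (j : ℕ) : ∃ k : ℕ, σ ^ k * σ ^ j = 1 := by
  have hN : 0 < Fintype.card (Equiv.Perm (Fin n)) := Fintype.card_pos
  refine ⟨(Fintype.card (Equiv.Perm (Fin n)) - 1) * j, ?_⟩
  rw [← pow_add]
  have : (Fintype.card (Equiv.Perm (Fin n)) - 1) * j + j =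
      Fintype.card (Equiv.Perm (Fin n)) * j := by
    obtain ⟨m, hm⟩ := Nat.exists_eq_succ_of_ne_zero hN.ne'
    rw [hm]
    simp only [Nat.succ_sub_one]
    rw [Nat.succ_mul]
  rw [this, pow_mul, pow_card_eq_one, one_pow]

theorem inv_pow {σ : Equiv.Perm (Fin n)} {S : Finset (Finset (Fin n))}
    (h : ∀ X ∈ S, act σ X ∈ S) (k : ℕ) : ∀ X ∈ S, act (σ ^ k) X ∈ S := by
  induction k with
  | zero =>
    intro X hX
    rw [pow_zero, act_one]
    exact hX
  | succ k ih =>
    intro X hX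
    rw [pow_succ, act_mul]
    exact ih _ (h X hX)

/-- A maximal symmetric subset of an invariant set. -/
theorem exists_max_sym (σ : Equiv.Perm (Fin n)) (P : Finset (Finset (Fin n)))
    (hP : ∀ X ∈ P, act σ X ∈ P) :
    ∃ S ⊆ P, Sym σ S ∧ ∀ X' ∈ P, X' ∉ S → ∃ X ∈ S, adj X X' := by
  classical
  have hne : (P.powerset.filter (Sym σ)).Nonempty :=
    ⟨∅, by simp [Helper53.KC.Sym]⟩
  obtain ⟨S, hS, hmax⟩ := Finset.exists_max_image _ Finset.card hne
  rw [mem_filter, mem_powerset] at hS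
  refine ⟨S, hS.1, hS.2, fun X' hX' hn => ?_⟩
  by_contra hcon
  push Not at hcon
  let O : Finset (Finset (Fin n)) := univ.filter fun Y => ∃ i : ℕ, Y = act (σ ^ i) X'
  have hO : ∀ Y, Y ∈ O ↔ ∃ i : ℕ, Y = act (σ ^ i) X' := fun Y => by simp [O]
  have hXO : X' ∈ O := (hO X').2 ⟨0, by rw [pow_zero, act_one]⟩
  have hno : ∀ X ∈ S, ∀ Y ∈ O, ¬ adj X Y := by
    intro X hX Y hY hadj
    obtain ⟨j, rfl⟩ := (hO Y).1 hY
    obtain ⟨k, hk⟩ := pow_inv σ j
    have h1 := adj_act (σ ^ k) hadj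
    rw [← act_mul, hk, act_one] at h1
    exact hcon _ (inv_pow hS.2.1 k X hX) h1
  have hst : Sym σ (S ∪ O) := by
    constructor
    · intro X hX
      rw [mem_union] at hX ⊢
      rcases hX with hX | hX
      · exact Or.inl (hS.2.1 X hX)
      · obtain ⟨i, rfl⟩ := (hO X).1 hX
        exact Or.inr ((hO _).2 ⟨i + 1, by rw [← act_mul, ← pow_succ']⟩)
    · intro X hX Y hY hadj
      rw [mem_union] at hX hY
      rcases hX with hX | hX
      · rcases hY with hY | hY
        · exact hS.2.2 X hX Y hY hadj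
        · exact absurd hadj (hno X hX Y hY)
      · rcases hY with hY | hY
        · exact absurd (adj_symm _ _ hadj) (hno Y hY X hX)
        · obtain ⟨i, rfl⟩ := (hO X).1 hX
          obtain ⟨j, rfl⟩ := (hO Y).1 hY
          obtain ⟨k, hk⟩ := pow_inv σ i
          refine ⟨j + k, ?_⟩
          rw [← act_mul, pow_add, mul_assoc, hk, mul_one]
  have hsub : S ∪ O ⊆ P := by
    refine union_subset hS.1 fun Y hY => ?_
    obtain ⟨i, rfl⟩ := (hO Y).1 hY
    exact inv_pow hP i X' hX'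
  have := hmax (S ∪ O) (by
    rw [mem_filter, mem_powerset]
    exact ⟨hsub, hst⟩)
  have h2 : S.card < (S ∪ O).card := by
    refine Finset.card_lt_card ?_
    rw [Finset.ssubset_iff_of_subset subset_union_left]
    exact ⟨X', mem_union_right _ hXO, hn⟩
  omega

/-- No small circuit in `X`, and `X` in no large hyperplane. -/
def Good (r t : ℕ) (M : Matroid (Fin n)) (X : Finset (Fin n)) : Prop :=
  X ∈ NB r M ∧ (∀ C ∈ thC r t M, ¬ C ⊆ X) ∧ ∀ H ∈ thH r t M, ¬ X ⊆ H

theorem good_act (hinvf : InvfStmt) {r t : ℕ} {σ : Equiv.Perm (Fin n)} {M : Matroid (Fin n)}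
    (hE : M.E = Set.univ) (hI : Inv σ M) {X : Finset (Fin n)} (h : Good r t M X) :
    Good r t M (act σ X) := by
  have hsurj : ∀ C : Finset (Fin n), ∃ C', act σ C' = C := by
    intro C
    refine ⟨act σ⁻¹ C, ?_⟩
    rw [← act_mul, mul_inv_cancel, act_one]
  have hsub : ∀ {A B : Finset (Fin n)}, act σ A ⊆ act σ B → A ⊆ B := by
    intro A B hAB
    have := act_subset σ⁻¹ hAB
    rwa [← act_mul, ← act_mul, inv_mul_cancel, act_one, act_one] at this
  refine ⟨((hinvf n r t σ M hE hI X).1).2 h.1, ?_, ?_⟩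
  · intro C hC hCX
    obtain ⟨C', rfl⟩ := hsurj C
    exact h.2.1 C' (((hinvf n r t σ M hE hI C').2.1).1 hC) (hsub hCX)
  · intro C hC hCX
    obtain ⟨C', rfl⟩ := hsurj C
    exact h.2.2 C' (((hinvf n r t σ M hE hI C').2.2).1 hC) (hsub hCX)

theorem good_of_und {r t Δ : ℕ} {A D : Finset (Finset (Fin n))} {M : Matroid (Fin n)}
    {X : Finset (Fin n)} (h : Und r t Δ A D M X) : Good r t M X := by
  obtain ⟨h1, -, -, h4⟩ := h
  refine ⟨h1, ?_, ?_⟩
  · intro C hC hCX
    exact h4 (Or.inl ⟨C, hC, hCX⟩)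
  · intro H hH hXH
    exact h4 (Or.inr (Or.inl ⟨H, hH, hXH⟩))

open Classical in
/-- The relation between a matroid and its data. -/
def Rel2 (r t Δ₂ : ℕ) (c₁ : Finset (Finset (Fin n)) → Finset (Finset (Fin n)))
    (c₂ : Finset (Finset (Fin n)) → Finset (Finset (Fin n)) → Finset (Finset (Fin n)))
    (M : Matroid (Fin n))
    (d : (((Finset (Finset (Fin n)) × Finset (Finset (Fin n))) ×
      Finset (Finset (Fin n) × Bool × Finset (Fin n) × Finset (Fin n))) ×
      Finset (Finset (Fin n) × Bool × Finset (Fin n) × Finset (Fin n))) ×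
      Finset (Finset (Fin n))) : Prop :=
  ∃ U₁ U₂ : Finset (Finset (Fin n)), U₁ ⊆ NB r M ∧ U₂ ⊆ NB r M ∧
    d.1.1.1.1 = thC r t M ∧ d.1.1.1.2 = thH r t M ∧
    d.1.1.2 = U₁.image (fun X => (X, info t M X)) ∧
    d.1.2 = U₂.image (fun X => (X, info t M X)) ∧
    (∀ v ∈ V n r, v ∉ c₁ U₁ → v ∈ U₁ ∨ (∃ u ∈ U₁, adj u v) ∨ v ∉ NB r M) ∧
    (∀ v ∈ c₁ U₁, v ∉ c₂ U₁ U₂ → v ∈ U₂ ∨ (∃ u ∈ U₂, adj u v) ∨ v ∉ NB r M) ∧
    (∀ X ∈ d.2, Good r t M X) ∧
    (∀ X', Und r t Δ₂ (c₂ U₁ U₂) ∅ M X' → X' ∉ d.2 → ∃ X ∈ d.2, adj X X')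

/-- CNT2. The number of the invariant matroids. -/
theorem cnt2 (hcont : ContStmt) (hsup : SupStmt) (hloc : LocStmt) (hinj : Inj2Stmt)
    (hext : ExtStmt) (hinvf : InvfStmt) : Cnt2Stmt := by
  classical
  intro n r t Δ₁ Δ₂ h u₁ a₁ u₂ σ hr hrn hΔ₁ hΔ₂ hs1 hs2 hth hu₁ ha₁ hu₂
  obtain ⟨c₁, c₁A, c₁L, c₁K⟩ := hcont (Finset (Fin n)) adj (V n r) Δ₁ hΔ₁ adj_symm adj_irrefl
  choose c₂ c₂A c₂L c₂K using fun U₁ : Finset (Finset (Fin n)) =>
    hcont (Finset (Fin n)) adj (c₁ U₁) Δ₂ hΔ₂ adj_symm adj_irrefl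
  have hV : (V n r).card = n.choose r := by
    unfold V; simp [card_powersetCard]
  have hpos : 0 < r * (n - r + 1) := Nat.mul_pos (by omega) (by omega)
  have hcA : ∀ U, (c₁ U).card ≤ a₁ := by
    intro U
    have h1 := hsup n r Δ₁ (c₁ U) (c₁A U) (fun v hv W hW hw => c₁L U v hv W hW hw) hr hrn.le
    have h2 : (c₁ U).card * (r * (n - r + 1)) < (a₁ + 1) * (r * (n - r + 1)) :=
      lt_of_le_of_lt h1 ha₁
    have := Nat.lt_of_mul_lt_mul_right h2
    omega
  -- the target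
  let Pt : Finset (Finset (Fin n)) := (univ : Finset (Fin n)).powerset.filter fun T => T.card ≤ t
  let Q := V n r ×ˢ ((univ : Finset Bool) ×ˢ (Pt ×ˢ Pt))
  let TC : Finset (Finset (Finset (Fin n))) :=
    (univ : Finset (Finset (Fin n))).powerset.filter fun T => T.card ≤ h
  let T1 := Q.powerset.filter fun T => T.card ≤ u₁
  let T2 := Q.powerset.filter fun T => T.card ≤ u₂
  let TS := (V n r).powerset.filter (Sym σ)
  have hPt : Pt.card = bl n t := by
    have := card_le_bl (univ : Finset (Fin n)) t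
    rwa [card_univ, Fintype.card_fin] at this
  have hQ : Q.card = n.choose r * (2 * (bl n t) ^ 2) := by
    simp only [Q, card_product, hV, hPt, card_univ, Fintype.card_bool]
    rw [sq]
  have hTC : TC.card = bl (2 ^ n) h := by
    have := card_le_bl (univ : Finset (Finset (Fin n))) h
    rwa [card_univ, Fintype.card_finset, Fintype.card_fin] at this
  have hT1 : T1.card = bl (n.choose r * (2 * (bl n t) ^ 2)) u₁ := by
    rw [← hQ]; exact card_le_bl Q u₁
  have hT2 : T2.card = bl (n.choose r * (2 * (bl n t) ^ 2)) u₂ := by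
    rw [← hQ]; exact card_le_bl Q u₂
  have hTS : TS.card = isym n r σ := rfl
  have hcard : ((((TC ×ˢ TC) ×ˢ T1) ×ˢ T2) ×ˢ TS).card =
      (bl (2 ^ n) h) ^ 2 * bl (n.choose r * (2 * (bl n t) ^ 2)) u₁ *
    bl (n.choose r * (2 * (bl n t) ^ 2)) u₂ * isym n r σ := by
    simp only [card_product, hTC, hT1, hT2, hTS]
    rw [pow_two (bl (2 ^ n) h)]
  rw [← hcard]
  unfold nsym
  refine ncard_le_of_rel _ _ (Rel2 r t Δ₂ c₁ c₂) ?_ ?_
  · rintro M ⟨hM, hI⟩
    obtain ⟨U₁, hU₁K, hU₁A, hU₁c, hU₁⟩ := c₁K (NB r M)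
    obtain ⟨U₂, hU₂K, hU₂A, hU₂c, hU₂⟩ := c₂K U₁ (NB r M)
    have hP : ∀ X ∈ (V n r).filter (fun X => Good r t M X),
        act σ X ∈ (V n r).filter (fun X => Good r t M X) := by
      intro X hX
      rw [mem_filter] at hX ⊢
      refine ⟨?_, good_act hinvf hM.1 hI hX.2⟩
      rw [mem_V] at hX ⊢
      rw [act_card]
      exact hX.1
    obtain ⟨S, hSP, hSst, hSmax⟩ := exists_max_sym σ _ hP
    have hinfoQ : ∀ X ∈ V n r, (X, info t M X) ∈ Q := by
      intro X hX
      simp only [Q, mem_product, Pt, mem_filter, mem_powerset, info, subset_univ, true_and,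
        mem_univ]
      refine ⟨hX, ?_, ?_⟩
      · split_ifs with hc
        · exact hc
        · simp
      · split_ifs with hc
        · exact hc
        · simp
    refine ⟨((((thC r t M, thH r t M), U₁.image (fun X => (X, info t M X))),
      U₂.image (fun X => (X, info t M X))), S), ?_, ?_⟩
    · simp only [mem_product]
      refine ⟨⟨⟨⟨?_, ?_⟩, ?_⟩, ?_⟩, ?_⟩
      · simp only [TC, mem_filter, mem_powerset, subset_univ, true_and]
        exact (hth M hM).1
      · simp only [TC, mem_filter, mem_powerset, subset_univ, true_and]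
        exact (hth M hM).2
      · simp only [T1, mem_filter, mem_powerset]
        constructor
        · intro q hq
          obtain ⟨X, hX, rfl⟩ := mem_image.1 hq
          exact hinfoQ X (hU₁A hX)
        · refine card_image_le.trans ?_
          rw [hV] at hU₁c
          have : U₁.card * Δ₁ < (u₁ + 1) * Δ₁ := by
            rw [mul_comm (u₁ + 1)]; exact lt_of_le_of_lt hU₁c hu₁
          have := Nat.lt_of_mul_lt_mul_right this
          omega
      · simp only [T2, mem_filter, mem_powerset]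
        constructor
        · intro q hq
          obtain ⟨X, hX, rfl⟩ := mem_image.1 hq
          exact hinfoQ X (c₁A U₁ (hU₂A hX))
        · refine card_image_le.trans ?_
          have h3 := hcA U₁
          have : U₂.card * Δ₂ < (u₂ + 1) * Δ₂ := by
            rw [mul_comm (u₂ + 1)]; omega
          have := Nat.lt_of_mul_lt_mul_right this
          omega
      · simp only [TS, mem_filter, mem_powerset]
        exact ⟨fun X hX => (mem_filter.1 (hSP hX)).1, hSst⟩
    · refine ⟨U₁, U₂, hU₁K, hU₂K, rfl, rfl, rfl, rfl, hU₁, hU₂,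
        fun X hX => (mem_filter.1 (hSP hX)).2, fun X' hX' hn => ?_⟩
      exact hSmax X' (mem_filter.2 ⟨(mem_NB.1 hX'.1).1, good_of_und hX'⟩) hn
  · rintro M ⟨hM, hI⟩ M' ⟨hM', hI'⟩ d - ⟨U₁, U₂, a1, a2, a3, a4, a5, a6, a7, a8, a9, a10⟩
      ⟨U₁', U₂', b1, b2, b3, b4, b5, b6, b7, b8, b9, b10⟩
    have hC : thC r t M = thC r t M' := by rw [← a3, b3]
    have hH : thH r t M = thH r t M' := by rw [← a4, b4]
    obtain ⟨e1, i1⟩ := image_pair_eq (a5.symm.trans b5)
    obtain ⟨e2, i2⟩ := image_pair_eq (a6.symm.trans b6)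
    subst e1
    subst e2
    have hout : NB r M \ c₂ U₁ U₂ = NB r M' \ c₂ U₁ U₂ := by
      apply subset_antisymm
      · exact out_sub hloc hM hM' hC hH a1 b1 a2 b2 i1 i2 a7 a8
      · exact out_sub hloc hM' hM hC.symm hH.symm b1 a1 b2 a2 (fun X hX => (i1 X hX).symm)
          (fun X hX => (i2 X hX).symm) b7 b8
    have hAV : c₂ U₁ U₂ ⊆ V n r := (c₂A U₁ U₂).trans (c₁A U₁)
    have hLow : Low (c₂ U₁ U₂) Δ₂ := fun v hv W hW hw => c₂L U₁ U₂ v hv W hW hw
    refine hext n r M M' hM hM' (subset_antisymm ?_ ?_)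
    · refine hinj n r t Δ₂ M M' (c₂ U₁ U₂) d.2 hM hM' hAV hLow hs1 hs2 hC hH hout
        (fun X hX => (b9 X hX).1) (fun X' hX' hn => ?_)
      obtain ⟨X, hX, hadj⟩ := a10 X' hX' hn
      exact ⟨X, hX, (a9 X hX).1, (a9 X hX).2.1, (a9 X hX).2.2, hadj⟩
    · refine hinj n r t Δ₂ M' M (c₂ U₁ U₂) d.2 hM' hM hAV hLow hs1 hs2 hC.symm hH.symm
        hout.symm (fun X hX => (a9 X hX).1) (fun X' hX' hn => ?_)
      obtain ⟨X, hX, hadj⟩ := b10 X' hX' hn
      exact ⟨X, hX, (b9 X hX).1, (b9 X hX).2.1, (b9 X hX).2.2, hadj⟩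

end Pool.Agent.Helper33.KC
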