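import Pool.Agent.Helper53.KC.Goals

/-!
KC-ENT: dual Shearer inequality for uniform measures.
-/

namespace Pool.Agent.Helper33.KC

open Finset Pool.Agent.Helper53.KC

variable {α : Type} [DecidableEq α]

/-- size of the fibre -/
def cnt (I : Finset (Finset α)) (b S : Finset α) : ℕ := (I.filter fun S' => S' \ b = S \ b).card

theorem cnt_congr (I : Finset (Finset α)) (b S S' : Finset α) (h : S' \ b = S \ b) :
    cnt I b S' = cnt I b S := by
  unfold cnt
  rw [h]

theorem cnt_pos {I : Finset (Finset α)} (b : Finset α) {S : Finset α} (h : S ∈ I) :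
    0 < cnt I b S := Finset.card_pos.2 ⟨S, Finset.mem_filter.2 ⟨h, rfl⟩⟩

theorem dbl (I I₀ : Finset (Finset α)) (b : Finset α) :
    ∑ S ∈ I₀, (cnt I b S : ℝ) / (cnt I₀ b S : ℝ) ≤ (I.card : ℝ) := by
  have h1 : ∀ S ∈ I₀, (cnt I b S : ℝ) / (cnt I₀ b S : ℝ) =
      ∑ S' ∈ I, if S' \ b = S \ b then ((cnt I₀ b S' : ℝ))⁻¹ else 0 := by
    intro S _
    rw [← Finset.sum_filter, Finset.sum_congr rfl (g := fun _ => ((cnt I₀ b S : ℝ))⁻¹)]
    · rw [Finset.sum_const, nsmul_eq_mul, div_eq_mul_inv]
      rfl
    · intro S' hS'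
      rw [cnt_congr I₀ b S S' (Finset.mem_filter.1 hS').2]
  rw [Finset.sum_congr rfl h1, Finset.sum_comm]
  have h2 : ∀ S' ∈ I, (∑ S ∈ I₀, if S' \ b = S \ b then ((cnt I₀ b S' : ℝ))⁻¹ else 0) ≤ 1 := by
    intro S' _
    rw [← Finset.sum_filter, Finset.sum_const, nsmul_eq_mul]
    have h3 : (I₀.filter fun S => S' \ b = S \ b).card = cnt I₀ b S' := by
      unfold cnt
      congr 1
      ext S
      simp only [Finset.mem_filter]
      constructor
      · rintro ⟨h, h'⟩
        exact ⟨h, h'.symm⟩
      · rintro ⟨h, h'⟩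
        exact ⟨h, h'.symm⟩
    rw [h3]
    exact mul_inv_le_one
  calc _ ≤ ∑ S' ∈ I, (1 : ℝ) := Finset.sum_le_sum h2
    _ = (I.card : ℝ) := by simp

theorem key (I I₀ : Finset (Finset α)) (hI : I₀ ⊆ I) (b : Finset α) :
    ∑ S ∈ I₀, Real.log (cnt I b S) ≤ ∑ S ∈ I₀, Real.log (cnt I₀ b S) +
      (I₀.card : ℝ) * (Real.log I.card - Real.log I₀.card) := by
  rcases I₀.eq_empty_or_nonempty with rfl | hne
  · simp
  have hc0 : (0 : ℝ) < I₀.card := by exact_mod_cast Finset.card_pos.2 hne
  have hc : (0 : ℝ) < I.card := by exact_mod_cast Finset.card_pos.2 (hne.mono hI)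
  have h1 : ∀ S ∈ I₀, Real.log (cnt I b S) ≤ Real.log (cnt I₀ b S) +
      (Real.log I.card - Real.log I₀.card) +
      ((cnt I b S : ℝ) / (cnt I₀ b S : ℝ) * (I₀.card / I.card) - 1) := by
    intro S hS
    have hp : (0 : ℝ) < cnt I b S := by exact_mod_cast cnt_pos b (hI hS)
    have hp0 : (0 : ℝ) < cnt I₀ b S := by exact_mod_cast cnt_pos b hS
    have h2 := Real.log_le_sub_one_of_pos (x := (cnt I b S : ℝ) / (cnt I₀ b S : ℝ) *
      (I₀.card / I.card)) (by positivity)
    rw [Real.log_mul (by positivity) (by positivity), Real.log_div hp.ne' hp0.ne',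
      Real.log_div hc0.ne' hc.ne'] at h2
    linarith
  have h3 := Finset.sum_le_sum h1
  rw [Finset.sum_add_distrib, Finset.sum_add_distrib, Finset.sum_const, nsmul_eq_mul,
    Finset.sum_sub_distrib, ← Finset.sum_mul, Finset.sum_const, nsmul_eq_mul, mul_one] at h3
  have h4 := mul_le_mul_of_nonneg_right (dbl I I₀ b) (div_nonneg hc0.le hc.le)
  have h5 : (I.card : ℝ) * (I₀.card / I.card) = I₀.card := by
    field_simp
  rw [h5] at h4
  linarith

theorem gen {ι : Type} (J : Finset ι) (B : ι → Finset α) (t : ℕ)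
    (ht : ∀ v, (J.filter fun j => v ∈ B j).card ≤ t) (Ω : Finset α) :
    ∀ I : Finset (Finset α), (∀ S ∈ I, ∀ S' ∈ I, S \ Ω = S' \ Ω) →
      ∑ j ∈ J, ∑ S ∈ I, Real.log (cnt I (B j) S) ≤ t * ((I.card : ℝ) * Real.log I.card) := by
  induction Ω using Finset.induction_on with
  | empty =>
    intro I hI
    have hcard : I.card ≤ 1 := by
      rw [Finset.card_le_one]
      intro S hS S' hS'
      have := hI S hS S' hS'
      simpa using this
    have h1 : ∀ j ∈ J, ∑ S ∈ I, Real.log (cnt I (B j) S) = 0 := by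
      intro j _
      refine Finset.sum_eq_zero fun S hS => ?_
      have h2 : cnt I (B j) S ≤ 1 := (Finset.card_filter_le _ _).trans hcard
      have h3 : 0 < cnt I (B j) S := cnt_pos (B j) hS
      have h4 : cnt I (B j) S = 1 := by omega
      rw [h4]
      simp
    rw [Finset.sum_congr rfl h1]
    simp only [Finset.sum_const_zero]
    have h5 : 0 ≤ Real.log (I.card : ℝ) := Real.log_natCast_nonneg _
    positivity
  | insert v Ω hv ih =>
    intro I hI
    set I₀ := I.filter fun S => v ∉ S with hI₀
    set I₁ := I.filter fun S => ¬ v ∉ S with hI₁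
    have hag : ∀ S S' : Finset α, (v ∈ S ↔ v ∈ S') → S \ insert v Ω = S' \ insert v Ω →
        S \ Ω = S' \ Ω := by
      intro S S' hvS hSS
      ext x
      by_cases hx : x = v
      · subst hx
        simp only [Finset.mem_sdiff, hvS]
      · have := Finset.ext_iff.1 hSS x
        simp only [Finset.mem_sdiff, Finset.mem_insert, hx, false_or] at this ⊢
        exact this
    have hA0 : ∀ S ∈ I₀, ∀ S' ∈ I₀, S \ Ω = S' \ Ω := by
      intro S hS S' hS'
      have h1 := Finset.mem_filter.1 hS
      have h2 := Finset.mem_filter.1 hS'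
      exact hag S S' (by simp only [h1.2, h2.2]) (hI S h1.1 S' h2.1)
    have hA1 : ∀ S ∈ I₁, ∀ S' ∈ I₁, S \ Ω = S' \ Ω := by
      intro S hS S' hS'
      have h1 := Finset.mem_filter.1 hS
      have h2 := Finset.mem_filter.1 hS'
      have h1' := not_not.1 h1.2
      have h2' := not_not.1 h2.2
      exact hag S S' (by simp only [h1', h2']) (hI S h1.1 S' h2.1)
    have hcardN : I₀.card + I₁.card = I.card :=
      Finset.card_filter_add_card_filter_not (s := I) (fun S => v ∉ S)
    have hcard : (I₀.card : ℝ) + I₁.card = I.card := by exact_mod_cast hcardN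
    set E : ℝ := (I₀.card : ℝ) * (Real.log I.card - Real.log I₀.card) +
      (I₁.card : ℝ) * (Real.log I.card - Real.log I₁.card) with hE
    have hterm : ∀ K : Finset (Finset α), K ⊆ I →
        0 ≤ (K.card : ℝ) * (Real.log I.card - Real.log K.card) := by
      intro K hK
      rcases K.eq_empty_or_nonempty with rfl | hne
      · simp
      · refine mul_nonneg (Nat.cast_nonneg _) (sub_nonneg.2 ?_)
        refine Real.log_le_log (by exact_mod_cast Finset.card_pos.2 hne) ?_
        exact_mod_cast Finset.card_le_card hK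
    have hE0 : 0 ≤ E := add_nonneg (hterm I₀ (Finset.filter_subset _ _))
      (hterm I₁ (Finset.filter_subset _ _))
    have hsplit : ∀ f : Finset α → ℝ, ∑ S ∈ I, f S = ∑ S ∈ I₀, f S + ∑ S ∈ I₁, f S := by
      intro f
      exact (Finset.sum_filter_add_sum_filter_not I (fun S => v ∉ S) f).symm
    have hj : ∀ j ∈ J, ∑ S ∈ I, Real.log (cnt I (B j) S) ≤
        ∑ S ∈ I₀, Real.log (cnt I₀ (B j) S) + ∑ S ∈ I₁, Real.log (cnt I₁ (B j) S) +
          (if v ∈ B j then E else 0) := by
      intro j _
      rw [hsplit]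
      by_cases hvj : v ∈ B j
      · rw [if_pos hvj]
        have h1 := key I I₀ (Finset.filter_subset _ _) (B j)
        have h2 := key I I₁ (Finset.filter_subset _ _) (B j)
        rw [hE]
        linarith
      · rw [if_neg hvj, add_zero]
        have h0 : ∀ S ∈ I₀, cnt I (B j) S = cnt I₀ (B j) S := by
          intro S hS
          unfold cnt
          congr 1
          ext S'
          simp only [hI₀, Finset.mem_filter]
          constructor
          · rintro ⟨h, h'⟩
            refine ⟨⟨h, ?_⟩, h'⟩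
            intro hvS
            have h3 : v ∈ S' \ B j := Finset.mem_sdiff.2 ⟨hvS, hvj⟩
            rw [h'] at h3
            exact (Finset.mem_filter.1 hS).2 (Finset.mem_sdiff.1 h3).1
          · rintro ⟨⟨h, _⟩, h'⟩
            exact ⟨h, h'⟩
        have h1 : ∀ S ∈ I₁, cnt I (B j) S = cnt I₁ (B j) S := by
          intro S hS
          unfold cnt
          congr 1
          ext S'
          simp only [hI₁, Finset.mem_filter]
          constructor
          · rintro ⟨h, h'⟩
            refine ⟨⟨h, ?_⟩, h'⟩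
            intro hvS
            have h4 : v ∈ S := not_not.1 (Finset.mem_filter.1 hS).2
            have h3 : v ∈ S \ B j := Finset.mem_sdiff.2 ⟨h4, hvj⟩
            rw [← h'] at h3
            exact hvS (Finset.mem_sdiff.1 h3).1
          · rintro ⟨⟨h, _⟩, h'⟩
            exact ⟨h, h'⟩
        refine le_of_eq ?_
        congr 1
        · exact Finset.sum_congr rfl fun S hS => by rw [h0 S hS]
        · exact Finset.sum_congr rfl fun S hS => by rw [h1 S hS]
    have hsum := Finset.sum_le_sum hj
    rw [Finset.sum_add_distrib, Finset.sum_add_distrib] at hsum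
    have hEs : ∑ j ∈ J, (if v ∈ B j then E else 0) ≤ t * E := by
      rw [← Finset.sum_filter, Finset.sum_const, nsmul_eq_mul]
      refine mul_le_mul_of_nonneg_right ?_ hE0
      exact_mod_cast ht v
    have hi0 := ih I₀ hA0
    have hi1 := ih I₁ hA1
    have hfin : (I.card : ℝ) * Real.log I.card =
        (I₀.card : ℝ) * Real.log I₀.card + (I₁.card : ℝ) * Real.log I₁.card + E := by
      rw [hE, ← hcard]
      ring
    rw [hfin]
    have : (t : ℝ) * ((I₀.card : ℝ) * Real.log I₀.card + (I₁.card : ℝ) * Real.log I₁.card + E) =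
        t * ((I₀.card : ℝ) * Real.log I₀.card) + t * ((I₁.card : ℝ) * Real.log I₁.card) + t * E := by
      ring
    rw [this]
    linarith

theorem ent : EntStmt := by
  intro α ι _ I J B t _ ht
  have h := gen J B t ht (I.sup id) I (by
    intro S hS S' hS'
    have h1 : S \ I.sup id = ∅ := Finset.sdiff_eq_empty_iff_subset.2 (Finset.le_sup (f := id) hS)
    have h2 : S' \ I.sup id = ∅ := Finset.sdiff_eq_empty_iff_subset.2 (Finset.le_sup (f := id) hS')
    rw [h1, h2])
  have hl : 0 < Real.log 2 := Real.log_pos (by norm_num)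
  simp only [Real.logb, ← Finset.sum_div]
  rw [div_le_iff₀ hl]
  have h3 : (t : ℝ) * I.card * (Real.log I.card / Real.log 2) * Real.log 2 =
      t * ((I.card : ℝ) * Real.log I.card) := by
    field_simp
  rw [h3]
  exact h

end Pool.Agent.Helper33.KC
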